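import Pool.Agent.Helper31.CY.St4

/-!
# CY, module XY: the `Y` points of the `Y`-catenoid
-/

set_option autoImplicit false

open Set Topology Filter

namespace Pool.Agent.Helper72.CY

open Pool.Agent.Helper31.CY

/-! ### gluing at `0` -/

private lemma glue_hasDerivAt {g g' : ℝ → ℝ} (hg : ∀ x, HasDerivAt g (g' x) x) (h0 : g' 0 = 0)
    (s : ℝ) : HasDerivAt (fun s => g |s|) (if 0 ≤ s then g' s else -g' (-s)) s := by
  rcases lt_trichotomy s 0 with hs | hs | hs
  · rw [if_neg (not_le.2 hs)]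
    have h1 : HasDerivAt (fun s => g (-s)) (g' (-s) * -1) s :=
      (hg (-s)).comp s ((hasDerivAt_id s).neg)
    rw [mul_neg_one] at h1
    refine h1.congr_of_eventuallyEq ?_
    filter_upwards [Iio_mem_nhds hs] with y hy
    rw [abs_of_neg hy]
  · subst hs
    rw [if_pos le_rfl, h0]
    have h1 : HasDerivWithinAt (fun s => g |s|) 0 (Ici 0) 0 := by
      have := (hg 0).hasDerivWithinAt (s := Ici 0)
      rw [h0] at this
      exact this.congr (fun x hx => by rw [abs_of_nonneg hx]) (by rw [abs_zero])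
    have h2 : HasDerivWithinAt (fun s => g |s|) 0 (Iic 0) 0 := by
      have h3 : HasDerivAt (fun s => g (-s)) (g' (-0) * -1) 0 :=
        (hg (-0)).comp 0 ((hasDerivAt_id (0 : ℝ)).neg)
      rw [neg_zero, h0, zero_mul] at h3
      exact h3.hasDerivWithinAt.congr (fun x hx => by rw [abs_of_nonpos hx])
        (by rw [abs_zero, neg_zero])
    have h3 := h2.union h1
    rw [Iic_union_Ici] at h3
    exact h3.hasDerivAt univ_mem
  · rw [if_pos hs.le]
    refine (hg s).congr_of_eventuallyEq ?_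
    filter_upwards [Ioi_mem_nhds hs] with y hy
    rw [abs_of_pos hy]

private lemma glue_contDiff {g g' : ℝ → ℝ} (hg : ∀ x, HasDerivAt g (g' x) x) (h0 : g' 0 = 0)
    (hc : Continuous g') : ContDiff ℝ 1 (fun s => g |s|) := by
  rw [contDiff_one_iff_deriv]
  refine ⟨fun s => (glue_hasDerivAt hg h0 s).differentiableAt, ?_⟩
  have h1 : deriv (fun s => g |s|) = fun s => if 0 ≤ s then g' s else -g' (-s) :=
    funext fun s => (glue_hasDerivAt hg h0 s).deriv
  rw [h1]
  refine Continuous.if_le hc (hc.comp continuous_neg).neg continuous_const continuous_id ?_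
  intro x hx
  rw [← hx, neg_zero, h0, neg_zero]

/-! ### the function `e` -/

private lemma cat_hasDerivAt {r : ℝ} (hr : 0 < r) (m τ : ℝ) :
    HasDerivAt (fun τ => cat r m τ) (ct r m τ) τ := by
  unfold cat ct
  have hw : 0 < Real.sqrt (1 + m ^ 2) := Real.sqrt_pos.2 (by positivity)
  have h1 : HasDerivAt (fun τ : ℝ => τ * Real.sqrt (1 + m ^ 2) / r + Real.arsinh m)
      (1 * Real.sqrt (1 + m ^ 2) / r) τ :=
    (((hasDerivAt_id τ).mul_const _).div_const _).add_const _
  have h2 := (h1.cosh).const_mul (r / Real.sqrt (1 + m ^ 2))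
  refine h2.congr_deriv ?_
  field_simp

private lemma cat_zero' (r m : ℝ) : cat r m 0 = r := by
  unfold cat
  have hw : 0 < Real.sqrt (1 + m ^ 2) := Real.sqrt_pos.2 (by positivity)
  rw [zero_mul, zero_div, zero_add, Real.cosh_arsinh]
  field_simp

private noncomputable def ge (r m : ℝ) (τ : ℝ) : ℝ := cat r m τ - r - m * τ

private lemma ge_deriv {r : ℝ} (hr : 0 < r) (m τ : ℝ) :
    HasDerivAt (ge r m) (ct r m τ - m) τ := by
  have h := ((cat_hasDerivAt hr m τ).sub_const r).sub ((hasDerivAt_id τ).const_mul m)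
  refine h.congr_deriv ?_
  ring

private lemma ct_zero' (r m : ℝ) : ct r m 0 = m := by
  unfold ct
  rw [zero_mul, zero_div, zero_add, Real.sinh_arsinh]

private lemma ge_contDiff {r : ℝ} (hr : 0 < r) (m : ℝ) : ContDiff ℝ 1 (fun s => ge r m |s|) := by
  refine glue_contDiff (g' := fun τ => ct r m τ - m) (ge_deriv hr m) ?_ ?_
  · simp only [ct_zero', sub_self]
  · unfold ct
    have := Real.continuous_sinh
    fun_prop

private lemma ge_abs_deriv {r : ℝ} (hr : 0 < r) (m : ℝ) :
    HasDerivAt (fun s => ge r m |s|) 0 0 := by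
  have h := glue_hasDerivAt (g' := fun τ => ct r m τ - m) (ge_deriv hr m)
    (by simp only [ct_zero', sub_self]) 0
  simpa [ct_zero'] using h

/-! ### the chart -/

private noncomputable def chart (p : E3) (ρ t : ℝ) (x : E3) : E3 :=
  pt (-(rad x - ρ - ge ρ (1 / Real.sqrt 3) |x 2 - t|)) (x 2 - t)
    ((-(p 1) * x 0 + p 0 * x 1) / ρ)

private lemma chart_zero (p : E3) (ρ t : ℝ) (x : E3) :
    chart p ρ t x 0 = -(rad x - ρ - ge ρ (1 / Real.sqrt 3) |x 2 - t|) := by
  simp [chart, pt]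

private lemma chart_one (p : E3) (ρ t : ℝ) (x : E3) : chart p ρ t x 1 = x 2 - t := by
  simp [chart, pt]

private lemma chart_two (p : E3) (ρ t : ℝ) (x : E3) :
    chart p ρ t x 2 = (-(p 1) * x 0 + p 0 * x 1) / ρ := by
  simp [chart, pt]

private lemma proj_contDiff (i : Fin 3) : ContDiff ℝ 1 (fun x : E3 => x i) :=
  (EuclideanSpace.proj i : E3 →L[ℝ] ℝ).contDiff

private lemma chart_contDiffOn (p : E3) {ρ : ℝ} (hρ : 0 < ρ) (t : ℝ) :
    ContDiffOn ℝ 1 (chart p ρ t) {x | 0 < x 0 ^ 2 + x 1 ^ 2} := by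
  have h0 := proj_contDiff 0
  have h1 := proj_contDiff 1
  have h2 := proj_contDiff 2
  rw [contDiffOn_euclidean]
  intro i
  fin_cases i
  · refine ContDiffOn.congr ?_ (fun x _ => chart_zero p ρ t x)
    have hr : ContDiffOn ℝ 1 (fun x : E3 => rad x) {x | 0 < x 0 ^ 2 + x 1 ^ 2} := by
      refine ContDiffOn.sqrt (((h0.pow 2).add (h1.pow 2)).contDiffOn) ?_
      intro x hx
      exact (ne_of_gt hx)
    have he : ContDiff ℝ 1 (fun x : E3 => ge ρ (1 / Real.sqrt 3) |x 2 - t|) :=
      (ge_contDiff hρ (1 / Real.sqrt 3)).comp (h2.sub contDiff_const)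
    exact ((hr.sub contDiffOn_const).sub he.contDiffOn).neg
  · exact ContDiffOn.congr (h2.sub contDiff_const).contDiffOn (fun x _ => chart_one p ρ t x)
  · refine ContDiffOn.congr ?_ (fun x _ => chart_two p ρ t x)
    exact (((contDiff_const.mul h0).add (contDiff_const.mul h1)).div_const ρ).contDiffOn

private lemma sq_of_rad {p : E3} {ρ : ℝ} (hp : rad p = ρ) : p 0 ^ 2 + p 1 ^ 2 = ρ ^ 2 := by
  rw [← hp, rad, Real.sq_sqrt (by positivity)]

/-- the differential of the chart at `p` -/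
private lemma chart_fderiv {p : E3} {ρ t : ℝ} (hρ : 0 < ρ) (hp : rad p = ρ) (ht : p 2 = t)
    (v : E3) :
    fderiv ℝ (chart p ρ t) p v = pt (-((p 0 * v 0 + p 1 * v 1) / ρ)) (v 2)
      ((-(p 1) * v 0 + p 0 * v 1) / ρ) := by
  have hsq := sq_of_rad hp
  have hpU : p ∈ {x : E3 | 0 < x 0 ^ 2 + x 1 ^ 2} := by
    change 0 < p 0 ^ 2 + p 1 ^ 2
    rw [hsq]; positivity
  have hopen : IsOpen {x : E3 | 0 < x 0 ^ 2 + x 1 ^ 2} :=
    isOpen_lt continuous_const (((proj_contDiff 0).continuous.pow 2).add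
      ((proj_contDiff 1).continuous.pow 2))
  have hd : HasFDerivAt (chart p ρ t) (fderiv ℝ (chart p ρ t) p) p :=
    (((chart_contDiffOn p hρ t).contDiffAt (hopen.mem_nhds hpU)).differentiableAt
      (by norm_num)).hasFDerivAt
  have hγ : HasDerivAt (fun s : ℝ => p + s • v) v 0 := by
    have := ((hasDerivAt_id (0 : ℝ)).smul_const v).const_add p
    simpa using this
  have hγ0 : p + (0 : ℝ) • v = p := by simp
  have hc : HasDerivAt (fun s : ℝ => chart p ρ t (p + s • v)) (fderiv ℝ (chart p ρ t) p v) 0 := by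
    have h : HasFDerivAt (chart p ρ t) (fderiv ℝ (chart p ρ t) p) (p + (0 : ℝ) • v) := by
      rw [hγ0]; exact hd
    exact h.comp_hasDerivAt 0 hγ
  have hci : ∀ i : Fin 3, HasDerivAt (fun s : ℝ => chart p ρ t (p + s • v) i)
      (fderiv ℝ (chart p ρ t) p v i) 0 := by
    intro i
    exact ((EuclideanSpace.proj i : E3 →L[ℝ] ℝ).hasFDerivAt).comp_hasDerivAt
      0 hc
  have hlin : ∀ i : Fin 3, HasDerivAt (fun s : ℝ => (p + s • v) i) (v i) 0 := by
    intro i
    exact ((EuclideanSpace.proj i : E3 →L[ℝ] ℝ).hasFDerivAt).comp_hasDerivAt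
      0 hγ
  ext i
  fin_cases i
  · refine (hci 0).unique ?_
    have e1 : (fun s : ℝ => chart p ρ t (p + s • v) 0) = fun s : ℝ =>
        -(Real.sqrt ((p + s • v) 0 ^ 2 + (p + s • v) 1 ^ 2) - ρ -
          ge ρ (1 / Real.sqrt 3) |(p + s • v) 2 - t|) := by
      funext s; rw [chart_zero]; rfl
    rw [e1]
    have h1 : HasDerivAt (fun s : ℝ => (p + s • v) 0 ^ 2 + (p + s • v) 1 ^ 2)
        (2 * (p 0 * v 0 + p 1 * v 1)) 0 := by
      have := ((hlin 0).pow 2).add ((hlin 1).pow 2)
      refine this.congr_deriv ?_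
      rw [hγ0]; push_cast; ring
    have h2 : HasDerivAt (fun s : ℝ => Real.sqrt ((p + s • v) 0 ^ 2 + (p + s • v) 1 ^ 2))
        ((p 0 * v 0 + p 1 * v 1) / ρ) 0 := by
      have := h1.sqrt (by rw [hγ0, hsq]; positivity)
      refine this.congr_deriv ?_
      rw [hγ0, hsq, Real.sqrt_sq hρ.le]
      field_simp
    have h3 : HasDerivAt (fun s : ℝ => ge ρ (1 / Real.sqrt 3) |(p + s • v) 2 - t|) 0 0 := by
      have h4 : HasDerivAt (fun s : ℝ => (p + s • v) 2 - t) (v 2) 0 := (hlin 2).sub_const t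
      have h5 : HasDerivAt (fun s => ge ρ (1 / Real.sqrt 3) |s|) 0
          ((fun s : ℝ => (p + s • v) 2 - t) 0) := by
        have : (fun s : ℝ => (p + s • v) 2 - t) 0 = 0 := by
          change (p + (0 : ℝ) • v) 2 - t = 0
          rw [hγ0, ht, sub_self]
        rw [this]; exact ge_abs_deriv hρ _
      have := h5.comp 0 h4
      rw [zero_mul] at this
      exact this
    have h6 := ((h2.sub_const ρ).sub h3).neg
    refine h6.congr_deriv ?_
    simp [pt]
  · refine (hci 1).unique ?_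
    have e1 : (fun s : ℝ => chart p ρ t (p + s • v) 1) = fun s : ℝ => (p + s • v) 2 - t := by
      funext s; rw [chart_one]
    rw [e1]
    refine ((hlin 2).sub_const t).congr_deriv ?_
    simp [pt]
  · refine (hci 2).unique ?_
    have e1 : (fun s : ℝ => chart p ρ t (p + s • v) 2) = fun s : ℝ =>
        (-(p 1) * (p + s • v) 0 + p 0 * (p + s • v) 1) / ρ := by
      funext s; rw [chart_two]
    rw [e1]
    refine ((((hlin 0).const_mul (-(p 1))).add ((hlin 1).const_mul (p 0))).div_const ρ).congr_deriv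
      ?_
    simp [pt]

/-- Module XY. -/
theorem hXY : StXY := by
  intro S p ρ t ε hρ hp ht hε hS
  have hsq := sq_of_rad hp
  have hpU : 0 < p 0 ^ 2 + p 1 ^ 2 := by rw [hsq]; positivity
  have hopen : IsOpen {x : E3 | 0 < x 0 ^ 2 + x 1 ^ 2} :=
    isOpen_lt continuous_const (((proj_contDiff 0).continuous.pow 2).add
      ((proj_contDiff 1).continuous.pow 2))
  have h3 : 0 < Real.sqrt 3 := Real.sqrt_pos.2 (by norm_num)
  have h33 : Real.sqrt 3 * Real.sqrt 3 = 3 := Real.mul_self_sqrt (by norm_num)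
  refine ⟨chart p ρ t, Metric.ball p ε ∩ {x | 0 < x 0 ^ 2 + x 1 ^ 2},
    Metric.isOpen_ball.inter hopen, ⟨Metric.mem_ball_self hε, hpU⟩,
    (chart_contDiffOn p hρ t).mono inter_subset_right, ?_, ?_, ?_⟩
  · -- the value at `p`
    ext i
    fin_cases i
    · change chart p ρ t p 0 = 0
      rw [chart_zero, hp, ht, sub_self, sub_self, abs_zero, ge, cat_zero']
      ring
    · change chart p ρ t p 1 = 0
      rw [chart_one, ht, sub_self]
    · change chart p ρ t p 2 = 0
      rw [chart_two]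
      have : -(p 1) * p 0 + p 0 * p 1 = 0 := by ring
      rw [this, zero_div]
  · -- the differential is isometric
    intro v
    rw [chart_fderiv hρ hp ht v, EuclideanSpace.norm_eq, EuclideanSpace.norm_eq]
    congr 1
    rw [Fin.sum_univ_three, Fin.sum_univ_three]
    simp only [Real.norm_eq_abs, sq_abs]
    have e0 : pt (-((p 0 * v 0 + p 1 * v 1) / ρ)) (v 2) ((-(p 1) * v 0 + p 0 * v 1) / ρ) 0
        = -((p 0 * v 0 + p 1 * v 1) / ρ) := by simp [pt]
    have e1 : pt (-((p 0 * v 0 + p 1 * v 1) / ρ)) (v 2) ((-(p 1) * v 0 + p 0 * v 1) / ρ) 1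
        = v 2 := by simp [pt]
    have e2 : pt (-((p 0 * v 0 + p 1 * v 1) / ρ)) (v 2) ((-(p 1) * v 0 + p 0 * v 1) / ρ) 2
        = (-(p 1) * v 0 + p 0 * v 1) / ρ := by simp [pt]
    rw [e0, e1, e2]
    have hρ2 : ρ ^ 2 ≠ 0 := by positivity
    have key : (-((p 0 * v 0 + p 1 * v 1) / ρ)) ^ 2 + ((-(p 1) * v 0 + p 0 * v 1) / ρ) ^ 2
        = v 0 ^ 2 + v 1 ^ 2 := by
      rw [neg_sq, div_pow, div_pow, ← add_div, div_eq_iff hρ2, ← hsq]
      ring
    linarith
  · -- the set
    rintro x ⟨hx1, hx2⟩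
    rw [hS x hx1]
    have hY : chart p ρ t x ∈ Ycone ↔ (chart p ρ t x 0, chart p ρ t x 1) ∈ tri := Iff.rfl
    rw [hY, chart_zero, chart_one]
    have hcat0 : cat ρ (1 / Real.sqrt 3) 0 = ρ := cat_zero' _ _
    have hm : (1 / Real.sqrt 3) * (Real.sqrt 3 / 2) = 1 / 2 := by field_simp
    constructor
    · rintro (h | ⟨h, h'⟩)
      · refine ⟨2 * |x 2 - t| / Real.sqrt 3, by positivity, ?_⟩
        have hA : -(rad x - ρ - ge ρ (1 / Real.sqrt 3) |x 2 - t|)
            = -(2 * |x 2 - t| / Real.sqrt 3 / 2) := by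
          rw [h, ge]; field_simp; ring
        have hB : Real.sqrt 3 / 2 * (2 * |x 2 - t| / Real.sqrt 3) = |x 2 - t| := by
          field_simp
        rcases le_total 0 (x 2 - t) with hs | hs
        · right; left
          rw [hA, hB, abs_of_nonneg hs]
        · right; right
          rw [hA, hB, abs_of_nonpos hs, neg_neg]
      · refine ⟨ρ - rad x, by linarith, Or.inl ?_⟩
        rw [h, sub_self, abs_zero, ge, hcat0]
        ext1
        · change -(rad x - ρ - (ρ - ρ - 1 / Real.sqrt 3 * 0)) = ρ - rad x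
          ring
        · rfl
    · rintro ⟨τ, hτ, h | h | h⟩
      · obtain ⟨h1, h2⟩ := Prod.mk.inj h
        right
        rw [h2, abs_zero, ge, hcat0] at h1
        exact ⟨by linarith, by linarith⟩
      · obtain ⟨h1, h2⟩ := Prod.mk.inj h
        left
        have hs : |x 2 - t| = Real.sqrt 3 / 2 * τ := by
          rw [h2, abs_of_nonneg (by positivity)]
        rw [ge] at h1
        have h4 : (1 / Real.sqrt 3) * |x 2 - t| = τ / 2 := by
          rw [hs, ← mul_assoc, hm]; ring
        linarith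
      · obtain ⟨h1, h2⟩ := Prod.mk.inj h
        left
        have hs : |x 2 - t| = Real.sqrt 3 / 2 * τ := by
          rw [h2, abs_neg, abs_of_nonneg (by positivity)]
        rw [ge] at h1
        have h4 : (1 / Real.sqrt 3) * |x 2 - t| = τ / 2 := by
          rw [hs, ← mul_assoc, hm]; ring
        linarith

end Pool.Agent.Helper72.CY
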